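import Pool.Agent.Q154.GaussFisher

set_option autoImplicit false

/-!
# The Gaussian grid-cell Fisher information has no maximiser among unimodular lattices
-/

open Real MeasureTheory

namespace Pool.Agent.Results.MP_e166ae_gt.NoMaximiser

/-- The translated lattice theta function of the lattice with basis `u`. -/
noncomputable def theta {d : ℕ} (u : Fin d → EuclideanSpace ℝ (Fin d)) (α : ℝ)
    (y : EuclideanSpace ℝ (Fin d)) : ℝ :=
  ∑' k : Fin d → ℤ, rexp (-π * α * ‖(∑ i, (k i : ℝ) • u i) + y‖ ^ 2)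

/-- The density `|∇ √θ|²`. -/
noncomputable def Q {d : ℕ} (u : Fin d → EuclideanSpace ℝ (Fin d)) (α : ℝ)
    (y : EuclideanSpace ℝ (Fin d)) : ℝ :=
  ‖gradient (fun z => √(theta u α z)) y‖ ^ 2

/-- The functional `F`, with Lebesgue measure on the ball of radius `R`. -/
noncomputable def F {d : ℕ} (α R : ℝ) (u : Fin d → EuclideanSpace ℝ (Fin d)) : ℝ :=
  ∫ y in Metric.closedBall (0 : EuclideanSpace ℝ (Fin d)) R, Q u α y

/-- `u` is a basis of a lattice of covolume one. -/
def IsUnimodular {d : ℕ} (u : Fin d → EuclideanSpace ℝ (Fin d)) : Prop :=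
  |(Matrix.of fun i j => u i j).det| = 1

/-- The basis of the triangular lattice. -/
noncomputable def A₂ : Fin 2 → EuclideanSpace ℝ (Fin 2) :=
  ![√(2 / √3) • !₂[(1 : ℝ), 0], √(2 / √3) • !₂[(1 / 2 : ℝ), √3 / 2]]

/-- The basis of the face-centred cubic lattice. -/
noncomputable def D₃ : Fin 3 → EuclideanSpace ℝ (Fin 3) :=
  ![(2 : ℝ) ^ (-(1 : ℝ) / 3) • !₂[(1 : ℝ), 0, 1], (2 : ℝ) ^ (-(1 : ℝ) / 3) • !₂[(0 : ℝ), 1, 1],
    (2 : ℝ) ^ (-(1 : ℝ) / 3) • !₂[(1 : ℝ), 1, 0]]

theorem unbounded (d : ℕ) (hd : 2 ≤ d) (α R : ℝ) (hα : 0 < α) (hR : 0 < R) (C : ℝ) :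
    ∃ u : Fin d → EuclideanSpace ℝ (Fin d), IsUnimodular u ∧ C < F α R u := by
  obtain ⟨m, rfl⟩ := Nat.exists_eq_add_of_le' hd
  obtain ⟨N, hN⟩ := Q154.GaussFisher.unbounded hα hR m C
  refine ⟨_, ?_, hN⟩
  have h : (Matrix.of fun i j => Q154.GaussFisher.diag (Q154.GaussFisher.tt m N) i j) =
      Matrix.diagonal (Q154.GaussFisher.tt m N) := by
    ext i j
    simp only [Matrix.of_apply, Q154.GaussFisher.diag, Matrix.diagonal_apply, PiLp.single_apply]
    by_cases hij : i = j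
    · subst hij; simp
    · rw [if_neg hij, if_neg (Ne.symm hij)]
  unfold IsUnimodular
  rw [h, Matrix.det_diagonal, Q154.GaussFisher.prod_tt, abs_one]

/-- In every dimension `d ≥ 2`, for all `α, R > 0`, the functional is unbounded above on the
unimodular lattices, so that it has no maximiser. In particular the triangular lattice and the
face-centred cubic lattice are not maximisers, for any radius. -/
theorem result :
    (∀ (d : ℕ), 2 ≤ d → ∀ α R : ℝ, 0 < α → 0 < R → ∀ C : ℝ,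
      ∃ u : Fin d → EuclideanSpace ℝ (Fin d), IsUnimodular u ∧ C < F α R u) ∧
    (∀ R : ℝ, 0 < R → ∃ u : Fin 2 → EuclideanSpace ℝ (Fin 2),
      IsUnimodular u ∧ F (10 / π) R A₂ < F (10 / π) R u) ∧
    (∀ R : ℝ, 0 < R → ∃ u : Fin 3 → EuclideanSpace ℝ (Fin 3),
      IsUnimodular u ∧ F (10 / π) R D₃ < F (10 / π) R u) :=
  ⟨unbounded, fun R hR => unbounded 2 le_rfl _ R (by positivity) hR _,
    fun R hR => unbounded 3 (by norm_num) _ R (by positivity) hR _⟩

end Pool.Agent.Results.MP_e166ae_gt.NoMaximiser
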